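import Pool.Agent.Y862.GM.Stm

set_option autoImplicit false

/-!
# Equidistribution of products of periodic functions (GM-EQUI)
-/

namespace Pool.Agent.Y672.GM

open Finset Pool.Agent.Y862.GM

/-- The Chinese remainder theorem for sums of products of periodic functions. -/
theorem sum_crt (m₁ m₂ : ℕ) (h₁ : 0 < m₁) (h₂ : 0 < m₂) (hc : Nat.Coprime m₁ m₂)
    (F₁ F₂ : ℕ → ℝ) (hF₁ : Function.Periodic F₁ m₁) (hF₂ : Function.Periodic F₂ m₂) :
    ∑ n ∈ range (m₁ * m₂), F₁ n * F₂ n = (∑ n ∈ range m₁, F₁ n) * ∑ n ∈ range m₂, F₂ n := by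
  rw [Finset.sum_mul_sum, ← Finset.sum_product']
  refine Finset.sum_bij' (fun n _ => (n % m₁, n % m₂))
    (fun p _ => (Nat.chineseRemainder hc p.1 p.2 : ℕ)) ?_ ?_ ?_ ?_ ?_
  · intro n _
    simp only [mem_product, mem_range]
    exact ⟨Nat.mod_lt _ h₁, Nat.mod_lt _ h₂⟩
  · intro p _
    exact mem_range.mpr (Nat.chineseRemainder_lt_mul hc p.1 p.2 h₁.ne' h₂.ne')
  · intro n hn
    have h3 := Nat.chineseRemainder_modEq_unique hc
      (Nat.mod_modEq n m₁).symm (Nat.mod_modEq n m₂).symm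
    have h4 := Nat.chineseRemainder_lt_mul hc (n % m₁) (n % m₂) h₁.ne' h₂.ne'
    exact (Nat.ModEq.eq_of_lt_of_lt h3 (mem_range.mp hn) h4).symm
  · intro p hp
    rw [mem_product, mem_range, mem_range] at hp
    have h3 := (Nat.chineseRemainder hc p.1 p.2).2
    refine Prod.ext ?_ ?_
    · have h4 := h3.1
      change (Nat.chineseRemainder hc p.1 p.2 : ℕ) % m₁ = p.1
      rw [h4, Nat.mod_eq_of_lt hp.1]
    · have h4 := h3.2
      change (Nat.chineseRemainder hc p.1 p.2 : ℕ) % m₂ = p.2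
      rw [h4, Nat.mod_eq_of_lt hp.2]
  · intro n _
    change F₁ n * F₂ n = F₁ (n % m₁) * F₂ (n % m₂)
    rw [hF₁.map_mod_nat n, hF₂.map_mod_nat n]

/-- The sum of a periodic function over a period. -/
theorem sum_shift (m : ℕ) (F : ℕ → ℝ) (hF : Function.Periodic F m) (Z : ℕ) :
    ∑ i ∈ range m, F (Z + i) = ∑ i ∈ range m, F i := by
  induction Z with
  | zero => simp
  | succ Z ih =>
    rw [← ih]
    have h1 := Finset.sum_range_succ (fun i => F (Z + i)) m
    have h2 := Finset.sum_range_succ' (fun i => F (Z + i)) m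
    have h3 : F (Z + m) = F (Z + 0) := by
      rw [hF Z, add_zero]
    have h4 : ∑ i ∈ range m, F (Z + 1 + i) = ∑ i ∈ range m, F (Z + (i + 1)) :=
      Finset.sum_congr rfl fun i _ => by rw [add_right_comm, add_assoc]
    rw [h4]
    linarith

/-- The sum over `k` periods and a rest. -/
theorem sum_mul_add (m : ℕ) (F : ℕ → ℝ) (hF : Function.Periodic F m) (k r Z : ℕ) :
    ∑ i ∈ range (k * m + r), F (Z + i) =
      k * ∑ i ∈ range m, F i + ∑ i ∈ range r, F (Z + k * m + i) := by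
  rw [Finset.sum_range_add]
  have h1 : ∑ i ∈ range (k * m), F (Z + i) = k * ∑ i ∈ range m, F i := by
    induction k with
    | zero => simp
    | succ k ih =>
      rw [add_mul, one_mul, Finset.sum_range_add, ih]
      have h2 : ∑ i ∈ range m, F (Z + (k * m + i)) = ∑ i ∈ range m, F i := by
        rw [← sum_shift m F hF (Z + k * m)]
        exact Finset.sum_congr rfl fun i _ => by rw [add_assoc]
      rw [h2]
      push_cast
      ring
  rw [h1]
  congr 1
  exact Finset.sum_congr rfl fun i _ => by rw [add_assoc]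

/-- The product of the periodic functions is periodic. -/
theorem prod_periodic (S : Finset ℕ) (a : ℕ → ℕ → ℝ)
    (ha : ∀ p ∈ S, ∀ n, a p (n + p ^ 2) = a p n) :
    Function.Periodic (fun n => ∏ p ∈ S, a p n) (∏ p ∈ S, p ^ 2) := by
  intro n
  refine Finset.prod_congr rfl fun p hp => ?_
  obtain ⟨k, hk⟩ := Finset.dvd_prod_of_mem (fun p => p ^ 2) hp
  have h1 : Function.Periodic (a p) (p ^ 2) := ha p hp
  have h2 := h1.nat_mul k
  rw [hk, mul_comm]
  exact h2 n

/-- The sum of the product over a full period. -/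
theorem sum_prod (S : Finset ℕ) (hS : ∀ p ∈ S, p.Prime) (a : ℕ → ℕ → ℝ)
    (ha : ∀ p ∈ S, ∀ n, a p (n + p ^ 2) = a p n) :
    ∑ n ∈ range (∏ p ∈ S, p ^ 2), ∏ p ∈ S, a p n = ∏ p ∈ S, ∑ n ∈ range (p ^ 2), a p n := by
  induction S using Finset.induction_on with
  | empty => simp
  | insert q S hq ih =>
    have hS' : ∀ p ∈ S, p.Prime := fun p hp => hS p (mem_insert_of_mem hp)
    have ha' : ∀ p ∈ S, ∀ n, a p (n + p ^ 2) = a p n := fun p hp => ha p (mem_insert_of_mem hp)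
    have hqp : q.Prime := hS q (mem_insert_self q S)
    rw [Finset.prod_insert hq, Finset.prod_insert hq, ← ih hS' ha']
    have hc : Nat.Coprime (q ^ 2) (∏ p ∈ S, p ^ 2) := by
      refine Nat.Coprime.prod_right fun p hp => ?_
      refine Nat.Coprime.pow 2 2 ((Nat.coprime_primes hqp (hS' p hp)).mpr ?_)
      rintro rfl
      exact hq hp
    rw [← sum_crt (q ^ 2) (∏ p ∈ S, p ^ 2) (pow_pos hqp.pos 2)
      (Finset.prod_pos fun p hp => pow_pos (hS' p hp).pos 2) hc (a q) _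
      (ha q (mem_insert_self q S)) (prod_periodic S a ha')]
    exact Finset.sum_congr rfl fun n _ => Finset.prod_insert hq

theorem t_EQUI : S_EQUI := by
  intro S hS a ha hb Z Y
  set m : ℕ := ∏ p ∈ S, p ^ 2 with hm
  set F : ℕ → ℝ := fun n => ∏ p ∈ S, a p n with hF
  have hmpos : 0 < m := Finset.prod_pos fun p hp => pow_pos (hS p hp).pos 2
  have hmR : (0 : ℝ) < m := by exact_mod_cast hmpos
  have hmc : (m : ℝ) = ∏ p ∈ S, (p : ℝ) ^ 2 := by
    rw [hm]
    push_cast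
    rfl
  have hper : Function.Periodic F m := prod_periodic S a ha
  have hFb : ∀ n, |F n| ≤ 2 ^ S.card := by
    intro n
    rw [hF]
    simp only
    rw [Finset.abs_prod]
    calc ∏ p ∈ S, |a p n| ≤ ∏ _p ∈ S, (2 : ℝ) :=
          Finset.prod_le_prod (fun p _ => abs_nonneg _) fun p hp => hb p hp n
      _ = 2 ^ S.card := by rw [Finset.prod_const]
  have hsum : ∀ (r : ℕ) (G : ℕ → ℝ), (∀ n, |G n| ≤ 2 ^ S.card) →
      |∑ i ∈ range r, G i| ≤ r * 2 ^ S.card := by
    intro r G hG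
    calc |∑ i ∈ range r, G i| ≤ ∑ i ∈ range r, |G i| := Finset.abs_sum_le_sum_abs _ _
      _ ≤ ∑ _i ∈ range r, (2 : ℝ) ^ S.card := Finset.sum_le_sum fun i _ => hG i
      _ = r * 2 ^ S.card := by rw [Finset.sum_const, card_range, nsmul_eq_mul]
  -- the mean
  have hmean : (Y : ℝ) * ∏ p ∈ S, ((∑ n ∈ range (p ^ 2), a p n) / p ^ 2) =
      Y * ((∑ n ∈ range m, F n) / m) := by
    rw [Finset.prod_div_distrib, ← sum_prod S hS a ha, hmc]
  have hIoc : ∑ n ∈ Ioc Z (Z + Y), ∏ p ∈ S, a p n = ∑ i ∈ range Y, F (Z + 1 + i) := by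
    have h1 : Ioc Z (Z + Y) = Ico (Z + 1) (Z + 1 + Y) := by
      ext n
      simp only [mem_Ioc, mem_Ico]
      omega
    rw [h1, Finset.sum_Ico_eq_sum_range]
    simp only [Nat.add_sub_cancel_left]
    rfl
  have hY : Y / m * m + Y % m = Y := by
    rw [mul_comm]
    exact Nat.div_add_mod Y m
  have hdec : ∑ i ∈ range Y, F (Z + 1 + i) = (Y / m : ℕ) * ∑ i ∈ range m, F i +
      ∑ i ∈ range (Y % m), F (Z + 1 + Y / m * m + i) := by
    rw [← sum_mul_add m F hper (Y / m) (Y % m) (Z + 1), hY]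
  set W : ℝ := ∑ i ∈ range m, F i with hW
  have hWb : |W| ≤ m * 2 ^ S.card := hsum m F hFb
  have hrest := hsum (Y % m) (fun i => F (Z + 1 + Y / m * m + i)) fun n => hFb _
  have hYR : (Y : ℝ) = (Y / m : ℕ) * m + (Y % m : ℕ) := by exact_mod_cast hY.symm
  have hr : ((Y % m : ℕ) : ℝ) ≤ m := by exact_mod_cast (Nat.mod_lt Y hmpos).le
  have hr0 : (0 : ℝ) ≤ ((Y % m : ℕ) : ℝ) := Nat.cast_nonneg _
  rw [hIoc, hmean, hdec, ← hmc]
  have h2 : ((Y / m : ℕ) : ℝ) * W + ∑ i ∈ range (Y % m), F (Z + 1 + Y / m * m + i) -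
      Y * (W / m) = ∑ i ∈ range (Y % m), F (Z + 1 + Y / m * m + i) -
        (Y % m : ℕ) / m * W := by
    rw [hYR]
    field_simp
    ring
  rw [h2]
  have h3 : |((Y % m : ℕ) : ℝ) / m * W| ≤ m * 2 ^ S.card := by
    rw [abs_mul, abs_of_nonneg (div_nonneg hr0 hmR.le)]
    calc ((Y % m : ℕ) : ℝ) / m * |W| ≤ 1 * (m * 2 ^ S.card) :=
          mul_le_mul ((div_le_one hmR).mpr hr) hWb (abs_nonneg _) zero_le_one
      _ = m * 2 ^ S.card := one_mul _
  have h4 : ((Y % m : ℕ) : ℝ) * 2 ^ S.card ≤ m * 2 ^ S.card :=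
    mul_le_mul_of_nonneg_right hr (by positivity)
  calc |∑ i ∈ range (Y % m), F (Z + 1 + Y / m * m + i) - ((Y % m : ℕ) : ℝ) / m * W|
      ≤ |∑ i ∈ range (Y % m), F (Z + 1 + Y / m * m + i)| + |((Y % m : ℕ) : ℝ) / m * W| :=
        abs_sub _ _
    _ ≤ m * 2 ^ S.card + m * 2 ^ S.card := add_le_add (hrest.trans h4) h3
    _ = 2 * 2 ^ S.card * m := by ring

end Pool.Agent.Y672.GM
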